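import Pool.Agent.H77.UB.Iso
import Pool.Agent.H77.AF.FinS

/-! # UB.V1 : exterior products of many zero-cycles supported on a curve of an affine elliptic surface are torsion, uniformly in the field -/

namespace H77.UB

open H68.BB Polynomial H77.AF

theorem int_T {K0 A : Type} [Field K0] [CommRing A] [Algebra K0 A]
    [Algebra K0[X] A] [IsScalarTower K0 K0[X] A] [Module.Finite K0[X] A] {T : A} (hT : algebraMap K0[X] A X = T)
    (r : A) : IsIntegral (Algebra.adjoin K0 ({T} : Set A)) r := by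
  obtain ⟨p, hp, hp0⟩ := (Algebra.IsIntegral.isIntegral r : IsIntegral K0[X] r)
  have hTm : T ∈ Algebra.adjoin K0 ({T} : Set A) := Algebra.subset_adjoin rfl
  let f : K0[X] →ₐ[K0] Algebra.adjoin K0 ({T} : Set A) := aeval ⟨T, hTm⟩
  have hf : (algebraMap (Algebra.adjoin K0 ({T} : Set A)) A).comp (f : K0[X] →+* _) = algebraMap K0[X] A := by
    apply Polynomial.ringHom_ext
    · intro c
      have h1 : (C c : K0[X]) = algebraMap K0 K0[X] c := rfl
      rw [h1, ← IsScalarTower.algebraMap_apply K0 K0[X] A, RingHom.comp_apply]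
      have h2 : (f : K0[X] →+* _) (algebraMap K0 K0[X] c) = algebraMap K0 (Algebra.adjoin K0 ({T} : Set A)) c :=
        f.commutes c
      rw [h2]
      rfl
    · have h2 : (f : K0[X] →+* Algebra.adjoin K0 ({T} : Set A)) X = ⟨T, hTm⟩ := aeval_X _
      rw [RingHom.comp_apply, h2, hT]
      rfl
  refine ⟨p.map (f : K0[X] →+* _), hp.map _, ?_⟩
  rw [eval₂_map, hf]
  exact hp0

/-- products of `M` zero-cycles supported on a curve `G = 0` are torsion -/
theorem v1 {K0 A : Type} [Field K0] [IsAlgClosed K0] [CharZero K0] [CommRing A] [IsDomain A] [Algebra K0 A]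
    [Algebra K0[X] A] [IsScalarTower K0 K0[X] A] [Module.Finite K0[X] A] [FaithfulSMul K0[X] A] {a b : A}
    {G : A[X][X]} (hG : ∃ P : SP K0 A K0 a b, P.val G ≠ 0) :
    ∃ M : ℕ, 0 < M ∧ ∀ (K : Type) [Field K] [IsAlgClosed K] [Algebra K0 K] (z : Fin M → Cyc1 (surf K0 K A a b)),
      (∀ i, ∀ P : SP K0 A K a b, P ∈ (z i).support → P.val G = 0) → prodM z ∈ tor (RatEq (surf K0 K A a b) M) := by
  have hft : Algebra.FiniteType K0 A := by
    have h1 : Algebra.FiniteType K0 K0[X] := inferInstance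
    have h2 : Algebra.FiniteType K0[X] A := inferInstance
    exact Algebra.FiniteType.trans h1 h2
  obtain ⟨k, hk⟩ := halt (K0 := K0) a b
  obtain ⟨T, hT⟩ : ∃ T, algebraMap K0[X] A X = T := ⟨_, rfl⟩
  exact finS (T := T) (int_T hT) (k := k) (fun K _ _ _ P => hk (k + 1) (Nat.le_succ k) K P) hG

end H77.UB
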