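import Mathlib

/-! # UB.Lin : extension of the field: injective, integral homomorphisms and linear independence (MATHLIB only, about 90 lines)

`map_inj`: `K` is free, so flat over `K0` (`Module.Flat.lTensor_preserves_injective_linearMap` or `Algebra.TensorProduct...`, `LinearMap.lTensor`).
`map_int`: `TensorProduct.induction_on`: `0`, sums: `RingHom.IsIntegralElem.add`; `c ⊗ x = (c ⊗ 1) * (1 ⊗ x)`, `c ⊗ 1` is in the image; `x` is a root of a monic polynomial `p` over `A` (through `i`), so `1 ⊗ x` is a root of the image of `p` in `(K ⊗ A)[X]` (`Polynomial.hom_eval₂`, `Polynomial.eval₂_map`).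
`lin0`: `K` is faithfully flat: `1 ⊗ x = 0 → x = 0` (or by a `K0`-linear form `l : A → K0` with `l x = 1` and `TensorProduct.rid`: apply `id ⊗ l`).
`lin1`: `y, x` are linearly independent over `K0` (`x ≠ 0`, `y ≠ c x`), so there is a `K0`-linear form `l : A → K0` with `l x = 0`, `l y = 1`; apply `id ⊗ l : K ⊗ A → K ⊗ K0 = K` to `1 ⊗ y = c ⊗ x`. -/

namespace H77.UB

open TensorProduct

variable {K0 A A' : Type} [Field K0] [CommRing A] [Algebra K0 A] [CommRing A'] [Algebra K0 A'] (K : Type) [Field K]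
  [Algebra K0 K]

theorem map_inj {i : A →ₐ[K0] A'} (hi : Function.Injective i) :
    Function.Injective (Algebra.TensorProduct.map (AlgHom.id K K) i : K ⊗[K0] A →ₐ[K] K ⊗[K0] A') := by
  have h := Module.Flat.lTensor_preserves_injective_linearMap (M := K) i.toLinearMap hi
  have e : ∀ z, (Algebra.TensorProduct.map (AlgHom.id K K) i : K ⊗[K0] A →ₐ[K] K ⊗[K0] A') z =
      LinearMap.lTensor K i.toLinearMap z := by
    intro z
    induction z using TensorProduct.induction_on with
    | zero => rw [map_zero, map_zero]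
    | tmul x y => rfl
    | add x y hx hy => rw [map_add, map_add, hx, hy]
  intro a b hab
  rw [e, e] at hab
  exact h hab

theorem map_int {i : A →ₐ[K0] A'} (hi : i.toRingHom.IsIntegral) :
    (Algebra.TensorProduct.map (AlgHom.id K K) i : K ⊗[K0] A →ₐ[K] K ⊗[K0] A').toRingHom.IsIntegral := by
  intro z
  set M := (Algebra.TensorProduct.map (AlgHom.id K K) i : K ⊗[K0] A →ₐ[K] K ⊗[K0] A').toRingHom with hM
  induction z using TensorProduct.induction_on with
  | zero => exact RingHom.isIntegralElem_zero _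
  | add x y hx hy => exact RingHom.IsIntegralElem.add _ hx hy
  | tmul c x =>
    have e1 : (c ⊗ₜ[K0] x : K ⊗[K0] A') = (c ⊗ₜ[K0] (1 : A')) * ((1 : K) ⊗ₜ[K0] x) := by
      rw [Algebra.TensorProduct.tmul_mul_tmul, mul_one, one_mul]
    have e2 : (c ⊗ₜ[K0] (1 : A') : K ⊗[K0] A') = M (c ⊗ₜ[K0] (1 : A)) := by
      show _ = (Algebra.TensorProduct.map (AlgHom.id K K) i : K ⊗[K0] A →ₐ[K] K ⊗[K0] A') (c ⊗ₜ[K0] (1 : A))
      rw [Algebra.TensorProduct.map_tmul, map_one]
      rfl
    rw [e1]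
    refine RingHom.IsIntegralElem.mul _ ?_ ?_
    · rw [e2]
      exact RingHom.isIntegralElem_map _
    · obtain ⟨p, hp, h0⟩ := hi x
      let j : A →+* K ⊗[K0] A := (Algebra.TensorProduct.includeRight : A →ₐ[K0] K ⊗[K0] A).toRingHom
      let j' : A' →+* K ⊗[K0] A' := (Algebra.TensorProduct.includeRight : A' →ₐ[K0] K ⊗[K0] A').toRingHom
      have h1 : M.comp j = j'.comp i.toRingHom := by
        ext a
        show (Algebra.TensorProduct.map (AlgHom.id K K) i : K ⊗[K0] A →ₐ[K] K ⊗[K0] A') ((1 : K) ⊗ₜ[K0] a) =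
          (1 : K) ⊗ₜ[K0] (i a)
        rw [Algebra.TensorProduct.map_tmul]
        rfl
      refine ⟨p.map j, hp.map _, ?_⟩
      rw [Polynomial.eval₂_map, h1]
      have h2 := Polynomial.hom_eval₂ p i.toRingHom j' x
      rw [h0, map_zero] at h2
      exact h2.symm

/-- extension of a linear form -/
private noncomputable def ext (l : A →ₗ[K0] K0) : K ⊗[K0] A →ₗ[K0] K :=
  (TensorProduct.rid K0 K).toLinearMap ∘ₗ LinearMap.lTensor K l

private theorem ext_tmul (l : A →ₗ[K0] K0) (c : K) (x : A) : ext K l (c ⊗ₜ[K0] x) = algebraMap K0 K (l x) * c := by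
  unfold ext
  rw [LinearMap.comp_apply, LinearMap.lTensor_tmul]
  show TensorProduct.rid K0 K (c ⊗ₜ[K0] l x) = _
  rw [TensorProduct.rid_tmul, Algebra.smul_def]

theorem lin0 {x : A} (hx : x ≠ 0) : ((1 : K) ⊗ₜ[K0] x : K ⊗[K0] A) ≠ 0 := by
  intro h
  apply hx
  rw [← Module.forall_dual_apply_eq_zero_iff K0 x]
  intro l
  have h1 := congrArg (ext K l) h
  rw [ext_tmul, map_zero, mul_one] at h1
  exact (map_eq_zero_iff _ (algebraMap K0 K).injective).1 h1

theorem lin1 {x y : A} (hx : x ≠ 0) (hy : ∀ c : K0, y ≠ algebraMap K0 A c * x) (c : K) :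
    ((1 : K) ⊗ₜ[K0] y : K ⊗[K0] A) ≠ algebraMap K (K ⊗[K0] A) c * ((1 : K) ⊗ₜ[K0] x) := by
  intro h
  rw [Algebra.TensorProduct.algebraMap_apply, Algebra.TensorProduct.tmul_mul_tmul, one_mul, mul_one,
    Algebra.algebraMap_self, RingHom.id_apply] at h
  obtain ⟨l, hl⟩ : ∃ l : Module.Dual K0 A, l x ≠ 0 := by
    by_contra hcon
    push Not at hcon
    exact hx ((Module.forall_dual_apply_eq_zero_iff K0 x).1 hcon)
  have h1 := congrArg (ext K l) h
  rw [ext_tmul, ext_tmul, mul_one] at h1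
  have hl' : algebraMap K0 K (l x) ≠ 0 := (map_ne_zero_iff _ (algebraMap K0 K).injective).2 hl
  have hc : c = algebraMap K0 K (l y / l x) := by
    rw [map_div₀, h1]
    field_simp
  have h2 : ((1 : K) ⊗ₜ[K0] (y - (l y / l x) • x) : K ⊗[K0] A) = 0 := by
    rw [TensorProduct.tmul_sub, TensorProduct.tmul_smul, h, hc, sub_eq_zero, TensorProduct.smul_tmul',
      Algebra.smul_def, mul_one]
  have h3 : y - (l y / l x) • x = 0 := by
    by_contra hne
    exact lin0 K hne h2
  apply hy (l y / l x)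
  rw [← Algebra.smul_def]
  exact sub_eq_zero.1 h3

end H77.UB
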