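import Pool.Agent.H19.ES.Crv

/-! # UB.Bc : extension of the field for finite free `K0[X]`-algebras (MATHLIB only, about 130 lines)

`A` is free over `K0[X]` with basis `f0`, `K ⊇ K0`.  The `K[X]`-algebra structure of `K ⊗ A`: `X ↦ 1 ⊗ t`, `t = algebraMap K0[X] A X` (`RingHom.toAlgebra` of `Polynomial.aeval`, as a `let`/`letI` inside the proof; `IsScalarTower.of_algebraMap_eq`).  Basis `1 ⊗ f0 j` (`Module.Basis.mk`).
SPAN: `c ⊗ (p • f0 j) = (C c * p.map) • (1 ⊗ f0 j)` (`p` by `Polynomial.induction_on'`), `TensorProduct.induction_on`, `Module.Basis.sum_repr`.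
INDEPENDENCE: `g = (Polynomial.basisMonomials K0).smulTower f0` is a `K0`-basis of `A`: `g (n, j) = X^n • f0 j`; `g.baseChange K` (`Module.Basis.baseChange`; or `Algebra.TensorProduct.basis`) is the `K`-basis `1 ⊗ (X^n • f0 j)` of `K ⊗ A`.  If `∑_j P_j • (1 ⊗ f0 j) = 0` then `∑_j ∑_n (P_j.coeff n) • (1 ⊗ X^n • f0 j) = 0`, so all coefficients are `0`.
COORDINATES: `f.repr (1 ⊗ a) j = (f0.repr a j).map (algebraMap K0 K)` (`1 ⊗ a = ∑ (f0.repr a j).map • (1 ⊗ f0 j)`, `Module.Basis.repr_sum_self`), `natDegree_map`; `f i * f j = 1 ⊗ (f0 i * f0 j)`. -/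

namespace H77.UB

open Polynomial TensorProduct H19.ES

attribute [local instance] Polynomial.algebra in
theorem bc {K0 A : Type} [Field K0] [CommRing A] [Algebra K0 A] [Algebra K0[X] A] [IsScalarTower K0 K0[X] A] {m s0 : ℕ}
    (f0 : Module.Basis (Fin m) K0[X] A) (hs : StB f0 s0) (K : Type) [Field K] [Algebra K0 K] :
    ∃ (_ : Algebra K[X] (K ⊗[K0] A)) (_ : IsScalarTower K K[X] (K ⊗[K0] A)) (f : Module.Basis (Fin m) K[X] (K ⊗[K0] A)),
      StB f s0 ∧ ∀ (a : A) (e0 : ℕ), (∀ j, (f0.repr a j).natDegree ≤ e0) →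
        ∀ j, (f.repr ((1 : K) ⊗ₜ[K0] a) j).natDegree ≤ e0 := by
  let e : K[X] ⊗[K0[X]] A ≃ₐ[K] K ⊗[K0] A := Algebra.IsPushout.cancelBaseChangeAlg K0 K K0[X] K[X] A
  have he : ∀ c : A, e (1 ⊗ₜ c) = 1 ⊗ₜ c := fun c => Algebra.IsPushout.cancelBaseChangeAlg_tmul K0 K K0[X] K[X] A c
  let inst1 : Algebra K[X] (K ⊗[K0] A) :=
    ((e : K[X] ⊗[K0[X]] A →+* K ⊗[K0] A).comp (algebraMap K[X] (K[X] ⊗[K0[X]] A))).toAlgebra
  have hal : ∀ p : K[X], algebraMap K[X] (K ⊗[K0] A) p = e (algebraMap K[X] (K[X] ⊗[K0[X]] A) p) := fun p => rfl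
  have inst2 : IsScalarTower K K[X] (K ⊗[K0] A) := by
    refine IsScalarTower.of_algebraMap_eq fun c => ?_
    rw [hal, ← IsScalarTower.algebraMap_apply, AlgEquiv.commutes]
  let e' : (K[X] ⊗[K0[X]] A) ≃ₗ[K[X]] (K ⊗[K0] A) :=
    { (e : K[X] ⊗[K0[X]] A ≃+* K ⊗[K0] A).toAddEquiv with
      map_smul' := fun p x => by
        rw [Algebra.smul_def, RingHom.id_apply, Algebra.smul_def, hal]
        exact map_mul e _ _ }
  have he' : ∀ x, e' x = e x := fun x => rfl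
  let f : Module.Basis (Fin m) K[X] (K ⊗[K0] A) := (Algebra.TensorProduct.basis K[X] f0).map e'
  have hf : ∀ (a : A) (j : Fin m), f.repr ((1 : K) ⊗ₜ[K0] a) j = (f0.repr a j).map (algebraMap K0 K) := by
    intro a j
    have h1 : (1 : K) ⊗ₜ[K0] a = e' (1 ⊗ₜ a) := (he a).symm
    rw [h1]
    change (Algebra.TensorProduct.basis K[X] f0).repr (e'.symm (e' (1 ⊗ₜ a))) j = _
    rw [LinearEquiv.symm_apply_apply, Algebra.TensorProduct.basis_repr_tmul, one_smul, Finsupp.mapRange_apply]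
    rfl
  refine ⟨inst1, inst2, f, ?_, ?_⟩
  · intro i j l
    have h2 : f i * f j = (1 : K) ⊗ₜ[K0] (f0 i * f0 j) := by
      have h3 : ∀ i, f i = (1 : K) ⊗ₜ[K0] f0 i := by
        intro i
        change e' ((Algebra.TensorProduct.basis K[X] f0) i) = _
        rw [Algebra.TensorProduct.basis_apply]
        exact he (f0 i)
      rw [h3, h3, Algebra.TensorProduct.tmul_mul_tmul, one_mul]
    rw [h2, hf]
    exact (natDegree_map_le).trans (hs i j l)
  · intro a e0 h j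
    rw [hf]
    exact (natDegree_map_le).trans (h j)

end H77.UB
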