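import Pool.Agent.H77.UB.Main
import Pool.Agent.H19.EI.IsoA
import Pool.Agent.H19.EI.IsoL

/-! # UB.Iso : antisymmetrised products of `k ≥ k0` points of an affine elliptic surface are torsion, `k0` independent of the field of the points: the isotrivial case, and all cases together -/

namespace H77.UB

open H68.BB Polynomial H77.AF TensorProduct H19.ES

private theorem map_alg {K0 A A' : Type} [Field K0] [CommRing A] [Algebra K0 A] [CommRing A'] [Algebra K0 A'] (K : Type)
    [Field K] [Algebra K0 K] {i : A →ₐ[K0] A'} {x : A} {c : K0} {w : A'} (h : i x = algebraMap K0 A' c * w) :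
    (Algebra.TensorProduct.map (AlgHom.id K K) i : K ⊗[K0] A →ₐ[K] K ⊗[K0] A') (1 ⊗ₜ x) =
      algebraMap K (K ⊗[K0] A') (algebraMap K0 K c) * (1 ⊗ₜ w) := by
  rw [Algebra.TensorProduct.map_tmul, map_one, h, Algebra.TensorProduct.algebraMap_apply,
    Algebra.TensorProduct.tmul_mul_tmul, one_mul, ← Algebra.smul_def, TensorProduct.tmul_smul,
    TensorProduct.smul_tmul', Algebra.smul_def, mul_one, Algebra.algebraMap_self, RingHom.id_apply, mul_one]

theorem haltI {K0 A : Type} [Field K0] [IsAlgClosed K0] [CharZero K0] [CommRing A] [IsDomain A] [Algebra K0 A]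
    [Algebra K0[X] A] [IsScalarTower K0 K0[X] A] [Module.Finite K0[X] A] [FaithfulSMul K0[X] A] {a b : A}
    (hj : ¬ ∀ p q : K0, algebraMap K0 A p * a ^ 3 + algebraMap K0 A q * b ^ 2 = 0 → p = 0 ∧ q = 0) :
    ∃ k0 : ℕ, ∀ k, k0 ≤ k → ∀ (K : Type) [Field K] [IsAlgClosed K] [Algebra K0 K] (P : Fin k → SP K0 A K a b),
      ∑ σ : Equiv.Perm (Fin k), (Equiv.Perm.sign σ : ℤ) •
        (Finsupp.single (fun i => P (σ i)) 1 : Cyc (surf K0 K A a b) k) ∈ tor (RatEq (surf K0 K A a b) k) := by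
  classical
  have hj' : ¬ ∀ p q : K0, algebraMap K0 A p * (-3 * a) ^ 3 + algebraMap K0 A q * (-2 * b) ^ 2 = 0 →
      p = 0 ∧ q = 0 := by
    intro h
    apply hj
    intro p q h1
    obtain ⟨h2, h3⟩ := h (4 * p) (-27 * q) (by
      rw [map_mul, map_mul, map_neg, map_ofNat, map_ofNat]
      linear_combination (-108) * h1)
    constructor
    · rcases mul_eq_zero.1 h2 with h4 | h4
      · norm_num at h4
      · exact h4
    · rcases mul_eq_zero.1 h3 with h4 | h4
      · norm_num at h4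
      · exact h4
  obtain ⟨A', _, _, _, _, _, _, _, i, u, a0, b0, hi, hint, -, ha, hb⟩ := isoL' hj'
  obtain ⟨m, ⟨f0⟩⟩ := free_of (K0 := K0) (A := A')
  obtain ⟨s0, hs0⟩ := stb f0
  obtain ⟨k0, hk0⟩ := isoA m s0
  refine ⟨k0, fun k hk K _ _ _ P => ?_⟩
  have hft : Algebra.FiniteType K0 A' := by
    have h1 : Algebra.FiniteType K0 K0[X] := inferInstance
    have h2 : Algebra.FiniteType K0[X] A' := inferInstance
    exact Algebra.FiniteType.trans h1 h2
  have hcz : CharZero K := charZero_of_injective_algebraMap (algebraMap K0 K).injective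
  have hdom : IsDomain (K ⊗[K0] A') := tens_dom K0 K A'
  obtain ⟨hX, hXt, f, hfs, -⟩ := bc f0 hs0 K
  have key := hk0 f hfs (map_inj K hi) (map_int K hint) (u := 1 ⊗ₜ u) (a := 1 ⊗ₜ (-3 * a)) (b := 1 ⊗ₜ (-2 * b))
    (a0 := algebraMap K0 K a0) (b0 := algebraMap K0 K b0)
    (by
      rw [map_alg K ha, Algebra.TensorProduct.tmul_pow, one_pow])
    (by
      rw [map_alg K hb, Algebra.TensorProduct.tmul_pow, one_pow]) k hk _
    (fun n x hn hx => quot_tf _ n x (Nat.pos_of_ne_zero hn) hx) (fnl K a b k) (fun j => upP (K := K) (P j))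
    (fun j => upP_on (P j))
  unfold altSum at key
  rw [← QuotientAddGroup.eq_zero_iff, QuotientAddGroup.mk_sum, ← key]
  refine Finset.sum_congr rfl fun σ _ => ?_
  rw [QuotientAddGroup.mk_zsmul]
  congr 1
  change _ = clU a b k (fun j => upP (K := K) (P (σ j)))
  unfold clU
  rw [dif_pos fun j => upP_on (P (σ j))]
  congr 1
  congr 1
  funext j
  exact (dn_upP (P (σ j))).symm

/-- all `a`, `b` -/
theorem halt {K0 A : Type} [Field K0] [IsAlgClosed K0] [CharZero K0] [CommRing A] [IsDomain A] [Algebra K0 A]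
    [Algebra K0[X] A] [IsScalarTower K0 K0[X] A] [Module.Finite K0[X] A] [FaithfulSMul K0[X] A] (a b : A) :
    ∃ k0 : ℕ, ∀ k, k0 ≤ k → ∀ (K : Type) [Field K] [IsAlgClosed K] [Algebra K0 K] (P : Fin k → SP K0 A K a b),
      ∑ σ : Equiv.Perm (Fin k), (Equiv.Perm.sign σ : ℤ) •
        (Finsupp.single (fun i => P (σ i)) 1 : Cyc (surf K0 K A a b) k) ∈ tor (RatEq (surf K0 K A a b) k) := by
  by_cases hj : ∀ p q : K0, algebraMap K0 A p * a ^ 3 + algebraMap K0 A q * b ^ 2 = 0 → p = 0 ∧ q = 0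
  · exact haltU hj
  · exact haltI hj

end H77.UB
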