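import Pool.Agent.H19.ES.Def2
import Pool.Agent.H77.AF.Surf

/-! # UB.Dn : points of `S` over `Spec (K ⊗ A)` (notation of `H19.ES`) and points of `surf K0 K A a b` (definitions and first facts, no sorry)

`A` a `K0`-algebra, `a, b ∈ A`, `K ⊇ K0`.  `surf K0 K A a b` is `y² = x³ - 3 a x - 2 b`; in the notation of `H19.ES` over the field `K` it is `OnS (1 ⊗ (-3 a)) (1 ⊗ (-2 b))` over the `K`-algebra `K ⊗ A`.  `dn` restricts the point `K ⊗ A → F` of the base to `A`. -/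

namespace H77.UB

open H68.BB H77.AF TensorProduct

variable {K0 K A : Type} [Field K0] [Field K] [Algebra K0 K] [CommRing A] [Algebra K0 A]

/-- the condition to lie on the surface -/
abbrev On (K : Type) [Field K] [Algebra K0 K] (a b : A) {F : Type} [Field F] [Algebra K F]
    (P : H19.ES.Pt K (K ⊗[K0] A) F) : Prop :=
  H19.ES.OnS ((1 : K) ⊗ₜ[K0] (-3 * a)) ((1 : K) ⊗ₜ[K0] (-2 * b)) P

section
variable {F : Type} [Field F] [Algebra K F] [Algebra K0 F] [IsScalarTower K0 K F]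

/-- restriction of the base point -/
noncomputable def rst (φ : K ⊗[K0] A →ₐ[K] F) : A →ₐ[K0] F :=
  (φ.restrictScalars K0).comp Algebra.TensorProduct.includeRight

theorem rst_apply (φ : K ⊗[K0] A →ₐ[K] F) (r : A) : rst φ r = φ ((1 : K) ⊗ₜ[K0] r) := rfl

theorem on_iff {a b : A} {P : H19.ES.Pt K (K ⊗[K0] A) F} :
    On K a b P ↔ P.y ^ 2 = P.x ^ 3 - 3 * rst P.b a * P.x - 2 * rst P.b b := by
  unfold On H19.ES.OnS
  rw [← rst_apply, ← rst_apply, map_mul, map_mul, map_neg, map_neg, map_ofNat, map_ofNat]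
  constructor
  · intro h; rw [h]; ring
  · intro h; rw [h]; ring

/-- the point of `surf` -/
noncomputable def dn {a b : A} (P : H19.ES.Pt K (K ⊗[K0] A) F) (h : On K a b P) : SP K0 A F a b where
  φ := rst P.b
  x := P.x
  y := P.y
  eq := on_iff.1 h

/-- the extension of a base point -/
noncomputable def ext (φ : A →ₐ[K0] F) : K ⊗[K0] A →ₐ[K] F :=
  Algebra.TensorProduct.lift (Algebra.ofId K F) φ (fun _ _ => Commute.all _ _)

theorem ext_tmul (φ : A →ₐ[K0] F) (c : K) (r : A) : ext φ (c ⊗ₜ[K0] r) = algebraMap K F c * φ r := by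
  unfold ext
  rw [Algebra.TensorProduct.lift_tmul]
  rfl

theorem rst_ext (φ : A →ₐ[K0] F) : rst (ext (K := K) φ) = φ := by
  ext r
  rw [rst_apply, ext_tmul, map_one, one_mul]

/-- the point over `K ⊗ A` -/
noncomputable def upP {a b : A} (Q : SP K0 A F a b) : H19.ES.Pt K (K ⊗[K0] A) F := ⟨ext Q.φ, Q.x, Q.y⟩

theorem upP_on {a b : A} (Q : SP K0 A F a b) : On K a b (upP (K := K) Q) := by
  rw [on_iff]
  change Q.y ^ 2 = Q.x ^ 3 - 3 * rst (ext (K := K) Q.φ) a * Q.x - 2 * rst (ext (K := K) Q.φ) b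
  rw [rst_ext]
  exact Q.eq

theorem dn_upP {a b : A} (Q : SP K0 A F a b) : dn (upP (K := K) Q) (upP_on Q) = Q :=
  SP.ext (rst_ext Q.φ) rfl rfl

end

/-- the action of the automorphisms -/
theorem dn_act {a b : A} (σ : Om K ≃ₐ[RatFunc K] Om K) (P : H19.ES.Pt K (K ⊗[K0] A) (Om K)) (h : On K a b P)
    (h' : On K a b (P.map (σ.toAlgHom.restrictScalars K))) :
    (surf K0 K A a b).act σ (dn P h) = dn (P.map (σ.toAlgHom.restrictScalars K)) h' := rfl

theorem dn_sp {a b : A} {π : Place K (Om K)} {P : H19.ES.Pt K (K ⊗[K0] A) (Om K)} (h : On K a b P)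
    {p : H19.ES.Pt K (K ⊗[K0] A) K} (h' : On K a b p) (hs : H19.ES.Sp π P p) :
    (surf K0 K A a b).sp π (dn P h) (dn p h') :=
  ⟨fun r => hs.1 _, hs.2.1, hs.2.2⟩

theorem dn_off {a b : A} {π : Place K (Om K)} {P : H19.ES.Pt K (K ⊗[K0] A) (Om K)} (h : On K a b P)
    (hs : ¬ H19.ES.Int π P) : (surf K0 K A a b).off π (dn P h) := by
  by_contra hcon
  change ¬ ((∃ r, rst P.b r ∉ π.V) ∨ P.x ∉ π.V ∨ P.y ∉ π.V) at hcon
  push Not at hcon
  obtain ⟨h1, h2, h3⟩ := hcon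
  refine hs ⟨?_, h2, h3⟩
  intro w
  induction w using TensorProduct.induction_on with
  | zero => rw [map_zero]; exact π.V.zero_mem
  | add a b ha hb => rw [map_add]; exact π.V.add_mem _ _ ha hb
  | tmul c r =>
    have h4 : (c ⊗ₜ[K0] r : K ⊗[K0] A) = c • (1 ⊗ₜ r) := by
      rw [TensorProduct.smul_tmul', smul_eq_mul, mul_one]
    rw [h4, map_smul, Algebra.smul_def]
    exact π.V.mul_mem _ _ (π.const c).choose (h1 r)

/-- a specialisation of a point of the surface is on the surface -/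
theorem sp_on {a b : A} {π : Place K (Om K)} {P : H19.ES.Pt K (K ⊗[K0] A) (Om K)} (h : On K a b P)
    {p : H19.ES.Pt K (K ⊗[K0] A) K} (hs : H19.ES.Sp π P p) : On K a b p := by
  obtain ⟨h1, h2, h3⟩ := hs
  have h4 := h3.pow 2
  have h5 := ((h2.pow 3).add ((h1 ((1 : K) ⊗ₜ[K0] (-3 * a))).mul h2)).add (h1 ((1 : K) ⊗ₜ[K0] (-2 * b)))
  unfold On H19.ES.OnS at h
  rw [← h] at h5
  exact h4.unique h5

end H77.UB
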