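import Pool.Agent.H77.UB.Dn

/-! # UB.Fn : the zero-cycles of `surf` modulo rational equivalence and torsion as a functional (about 110 lines)

`rel` (the only thing to prove).  `S` a multiset of tuples over `Ω` on the surface, `S'` = the multiset of the tuples `fun i => dn (s i) _` (e.g. `Multiset.pmap` with the hypothesis `∀ s ∈ S, ∀ i, On K a b (s i)`).
(1) `AF.GalStable S'`: `dn_act`; `S.map (gal σ) = S` (`Multiset.map_pmap`, `Multiset.pmap_map`; rewriting of the multiset: a general lemma `S = T → S.pmap f h = T.pmap f h'` by `subst`).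
(2) From `Lim cl π S c`: there is `c1 : Multiset (Fin k → SP ..)` with `AF.Fibre π S' c1` and `c = QuotientAddGroup.mk (AF.cyc c1)`: induction on `Multiset.Rel (Lim1 cl π) S C`; for one pair: either all points specialise (`sp_on`, `dn_sp`; the member of `S'` goes into the first part, `c1` gets `fun i => dn (p i) _`,
`clU` of it is the class of this point: `dif_pos`), or one of the points is not integral (`dn_off`; the member goes into the second part, and `c = 0`).
(3) `AF.cyc c1 - AF.cyc c1' ∈ AF.RatEq` (`AddSubgroup.subset_closure`), `le_tor`, so the classes are equal (`QuotientAddGroup.eq`, up to sign). -/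

namespace H77.UB

open H68.BB H77.AF TensorProduct

variable {K0 K A : Type} [Field K0] [Field K] [Algebra K0 K] [CommRing A] [Algebra K0 A]

/-- zero-cycles of the `k`-th power modulo rational equivalence and torsion -/
abbrev CH (K0 K A : Type) [Field K0] [Field K] [Algebra K0 K] [CommRing A] [Algebra K0 A] (a b : A) (k : ℕ) : Type :=
  Cyc (surf K0 K A a b) k ⧸ tor (RatEq (surf K0 K A a b) k)

open Classical in
/-- the class of a tuple -/
noncomputable def clU (a b : A) (k : ℕ) (s : Fin k → H19.ES.Pt K (K ⊗[K0] A) K) : CH K0 K A a b k :=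
  if h : ∀ i, On K a b (s i) then QuotientAddGroup.mk (Finsupp.single (fun i => dn (s i) (h i)) 1) else 0

private theorem pmap_congr' {α β : Type} {p : α → Prop} (f : ∀ a, p a → β) {S T : Multiset α} (hST : S = T)
    (h : ∀ a ∈ S, p a) (h' : ∀ a ∈ T, p a) : S.pmap f h = T.pmap f h' := by
  subst hST
  rfl

private theorem cyc_cons' {D : PD K} {k : ℕ} (P : Fin k → D.X) (c : Multiset (Fin k → D.X)) :
    (QuotientAddGroup.mk (AF.cyc (P ::ₘ c)) : Cyc D k ⧸ tor (RatEq D k))
      = QuotientAddGroup.mk (Finsupp.single P 1) + QuotientAddGroup.mk (AF.cyc c) := by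
  unfold AF.cyc
  rw [Multiset.map_cons, Multiset.sum_cons, QuotientAddGroup.mk_add]

/-- the tuple of points of `surf` over `K` -/
private noncomputable def dnX (a b : A) (k : ℕ) (s : Fin k → H19.ES.Pt K (K ⊗[K0] A) K) (h : ∀ i, On K a b (s i)) :
    Fin k → (surf K0 K A a b).X := fun i => dn (s i) (h i)

/-- the tuple of points of `surf` -/
private noncomputable def dnT (a b : A) (k : ℕ) (s : Fin k → H19.ES.Pt K (K ⊗[K0] A) (Om K)) (h : ∀ i, On K a b (s i)) :
    Fin k → (surf K0 K A a b).Y := fun i => dn (s i) (h i)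

private theorem dn_stable (a b : A) (k : ℕ) (S : Multiset (Fin k → H19.ES.Pt K (K ⊗[K0] A) (Om K)))
    (hS : ∀ s ∈ S, ∀ i, On K a b (s i)) (hG : H19.ES.GalStable S) :
    AF.GalStable (D := surf K0 K A a b) (S.pmap (dnT a b k) hS) := by
  intro σ
  rw [Multiset.map_pmap]
  have hσ : ∀ s ∈ S.map (H19.ES.gal σ), ∀ i, On K a b (s i) := by
    rw [hG σ]
    exact hS
  have h1 : (S.map (H19.ES.gal σ)).pmap (dnT a b k) hσ = S.pmap (dnT a b k) hS := pmap_congr' _ (hG σ) _ _
  rw [← h1]
  have key : ∀ (T : Multiset (Fin k → H19.ES.Pt K (K ⊗[K0] A) (Om K))) (h2 : ∀ s ∈ T, ∀ i, On K a b (s i))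
      (h3 : ∀ s ∈ T.map (H19.ES.gal σ), ∀ i, On K a b (s i)),
      T.pmap (fun s h i => (surf K0 K A a b).act σ (dnT a b k s h i)) h2 = (T.map (H19.ES.gal σ)).pmap (dnT a b k) h3 := by
    intro T
    induction T using Multiset.induction_on with
    | empty => intro h2 h3; rfl
    | cons t T ih =>
      intro h2 h3
      have h4 : ∀ s ∈ T, ∀ i, On K a b (s i) := fun s hs => h2 s (Multiset.mem_cons_of_mem hs)
      have h5 : ∀ s ∈ T.map (H19.ES.gal σ), ∀ i, On K a b (s i) := fun s hs => h3 s (by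
        rw [Multiset.map_cons]
        exact Multiset.mem_cons_of_mem hs)
      have h6 : ∀ s ∈ H19.ES.gal σ t ::ₘ T.map (H19.ES.gal σ), ∀ i, On K a b (s i) := by
        rw [← Multiset.map_cons]
        exact h3
      have e1 : ((t ::ₘ T).map (H19.ES.gal σ)).pmap (dnT a b k) h3
          = (H19.ES.gal σ t ::ₘ T.map (H19.ES.gal σ)).pmap (dnT a b k) h6 := pmap_congr' _ (Multiset.map_cons _ _ _) _ _
      rw [e1, Multiset.pmap_cons, Multiset.pmap_cons, ← ih h4 h5]
      rfl
  exact key S hS hσ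

private theorem lim_fibre (a b : A) (k : ℕ) (π : Place K (Om K)) (S : Multiset (Fin k → H19.ES.Pt K (K ⊗[K0] A) (Om K)))
    (C : Multiset (CH K0 K A a b k)) (h : Multiset.Rel (H19.ES.Lim1 (clU a b k) π) S C) :
    ∀ hS : ∀ s ∈ S, ∀ i, On K a b (s i), ∃ c1 : Multiset (Fin k → (surf K0 K A a b).X),
      AF.Fibre (D := surf K0 K A a b) π (S.pmap (dnT a b k) hS) c1 ∧ C.sum = QuotientAddGroup.mk (AF.cyc c1) := by
  induction h with
  | zero =>
    intro hS
    refine ⟨0, ⟨0, 0, ?_, Multiset.Rel.zero, fun P hP => absurd hP (Multiset.notMem_zero P)⟩, ?_⟩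
    · rw [Multiset.pmap_zero, add_zero]
    · unfold AF.cyc
      rw [Multiset.sum_zero, Multiset.map_zero, Multiset.sum_zero]
      rfl
  | @cons s c S C h1 h2 ih =>
    intro hS
    have hs : ∀ i, On K a b (s i) := hS s (Multiset.mem_cons_self s S)
    have hS' : ∀ s ∈ S, ∀ i, On K a b (s i) := fun t ht => hS t (Multiset.mem_cons_of_mem ht)
    obtain ⟨c1, ⟨S1, S2, hSS, hR, ho⟩, hc⟩ := ih hS'
    have hp : (s ::ₘ S).pmap (dnT a b k) hS = dnT a b k s hs ::ₘ S.pmap (dnT a b k) hS' := Multiset.pmap_cons _ _ _ _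
    rw [hp]
    rcases h1 with ⟨p, hpS, rfl⟩ | ⟨⟨i, hi⟩, rfl⟩
    · have hpo : ∀ i, On K a b (p i) := fun i => sp_on (hs i) (hpS i)
      refine ⟨dnX a b k p hpo ::ₘ c1, ⟨dnT a b k s hs ::ₘ S1, S2, ?_, ?_, ho⟩, ?_⟩
      · rw [hSS, Multiset.cons_add]
      · exact Multiset.Rel.cons (fun i => dn_sp (hs i) (hpo i) (hpS i)) hR
      · have e1 : clU a b k p = QuotientAddGroup.mk (Finsupp.single (dnX a b k p hpo) 1) := dif_pos hpo
        rw [Multiset.sum_cons, hc, e1]
        exact (cyc_cons' _ _).symm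
    · refine ⟨c1, ⟨S1, dnT a b k s hs ::ₘ S2, ?_, hR, ?_⟩, ?_⟩
      · rw [hSS, Multiset.add_cons]
      · intro P hP
        rcases Multiset.mem_cons.1 hP with rfl | hP
        · exact ⟨i, dn_off (hs i) hi⟩
        · exact ho P hP
      · rw [Multiset.sum_cons, hc, zero_add]

theorem clU_rel (a b : A) (k : ℕ) (S : Multiset (Fin k → H19.ES.Pt K (K ⊗[K0] A) (Om K))) (π π' : Place K (Om K))
    (c c' : CH K0 K A a b k) (hS : ∀ s ∈ S, ∀ i, On K a b (s i)) (hG : H19.ES.GalStable S)
    (h : H19.ES.Lim (clU a b k) π S c) (h' : H19.ES.Lim (clU a b k) π' S c') : c = c' := by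
  obtain ⟨C, hC, rfl⟩ := h
  obtain ⟨C', hC', rfl⟩ := h'
  obtain ⟨c1, hf, hc⟩ := lim_fibre a b k π S C hC hS
  obtain ⟨c1', hf', hc'⟩ := lim_fibre a b k π' S C' hC' hS
  rw [hc, hc', ← sub_eq_zero, ← QuotientAddGroup.mk_sub, QuotientAddGroup.eq_zero_iff]
  exact le_tor _ (AddSubgroup.subset_closure ⟨_, π, π', c1, c1', dn_stable a b k S hS hG, hf, hf', rfl⟩)

/-- the functional -/
noncomputable def fnl (K : Type) [Field K] [Algebra K0 K] (a b : A) (k : ℕ) :
    H19.ES.Fnl (fun P : H19.ES.Pt K (K ⊗[K0] A) (Om K) => On K a b P) k (CH K0 K A a b k) where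
  cl := clU a b k
  rel := clU_rel a b k

end H77.UB
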