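import Pool.Agent.H77.UB.Fn
import Pool.Agent.H77.UB.Bc
import Pool.Agent.H77.UB.Lin
import Pool.Agent.H19.ES.L2
import Pool.Agent.H19.ES.Lvl
import Pool.Agent.H77.AF.TD

/-! # UB.Main : antisymmetrised products of `k ≥ k0` points of an affine elliptic surface are torsion, `k0` independent of the field of the points -/

namespace H77.UB

open H68.BB Polynomial H77.AF TensorProduct H19.ES

theorem free_of {K0 A : Type} [Field K0] [CommRing A] [IsDomain A] [Algebra K0[X] A] [Module.Finite K0[X] A]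
    [FaithfulSMul K0[X] A] : ∃ m : ℕ, Nonempty (Module.Basis (Fin m) K0[X] A) := by
  have h1 : Module.IsTorsionFree K0[X] A := inferInstance
  obtain ⟨m, f⟩ := Module.basisOfFiniteTypeTorsionFree' (R := K0[X]) (M := A)
  exact ⟨m, ⟨f⟩⟩

private theorem bound {K0 A : Type} [Field K0] [CommRing A] [Algebra K0[X] A] {m : ℕ}
    (f : Module.Basis (Fin m) K0[X] A) (x y : A) : ∃ e0, (∀ j, (f.repr x j).natDegree ≤ e0) ∧
      ∀ j, (f.repr y j).natDegree ≤ e0 := by
  refine ⟨(Finset.univ.sup fun j => (f.repr x j).natDegree) + Finset.univ.sup fun j => (f.repr y j).natDegree, ?_, ?_⟩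
  · intro j
    exact (Finset.le_sup (f := fun j => (f.repr x j).natDegree) (Finset.mem_univ j)).trans (Nat.le_add_right _ _)
  · intro j
    exact (Finset.le_sup (f := fun j => (f.repr y j).natDegree) (Finset.mem_univ j)).trans (Nat.le_add_left _ _)

theorem stb {K0 A : Type} [Field K0] [CommRing A] [Algebra K0[X] A] {m : ℕ}
    (f : Module.Basis (Fin m) K0[X] A) : ∃ s, StB f s := by
  refine ⟨Finset.univ.sup fun p : Fin m × Fin m × Fin m => (f.repr (f p.1 * f p.2.1) p.2.2).natDegree, ?_⟩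
  intro i j l
  exact Finset.le_sup (f := fun p : Fin m × Fin m × Fin m => (f.repr (f p.1 * f p.2.1) p.2.2).natDegree)
    (Finset.mem_univ (i, j, l))

theorem haltU {K0 A : Type} [Field K0] [IsAlgClosed K0] [CharZero K0] [CommRing A] [IsDomain A] [Algebra K0 A]
    [Algebra K0[X] A] [IsScalarTower K0 K0[X] A] [Module.Finite K0[X] A] [FaithfulSMul K0[X] A] {a b : A}
    (hj : ∀ p q : K0, algebraMap K0 A p * a ^ 3 + algebraMap K0 A q * b ^ 2 = 0 → p = 0 ∧ q = 0) :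
    ∃ k0 : ℕ, ∀ k, k0 ≤ k → ∀ (K : Type) [Field K] [IsAlgClosed K] [Algebra K0 K] (P : Fin k → SP K0 A K a b),
      ∑ σ : Equiv.Perm (Fin k), (Equiv.Perm.sign σ : ℤ) •
        (Finsupp.single (fun i => P (σ i)) 1 : Cyc (surf K0 K A a b) k) ∈ tor (RatEq (surf K0 K A a b) k) := by
  classical
  have hj' : ∀ p q : K0, algebraMap K0 A p * (-3 * a) ^ 3 + algebraMap K0 A q * (-2 * b) ^ 2 = 0 → p = 0 ∧ q = 0 := by
    intro p q h
    have h1 : algebraMap K0 A (-27 * p) * a ^ 3 + algebraMap K0 A (4 * q) * b ^ 2 = 0 := by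
      rw [map_mul, map_mul, map_neg, map_ofNat, map_ofNat]
      linear_combination h
    obtain ⟨h2, h3⟩ := hj _ _ h1
    constructor
    · rcases mul_eq_zero.1 h2 with h4 | h4
      · norm_num at h4
      · exact h4
    · rcases mul_eq_zero.1 h3 with h4 | h4
      · norm_num at h4
      · exact h4
  obtain ⟨A', _, _, _, _, _, _, _, i, e, be, ga, hi, hint, he, hbe, hga, hbe0, hga0⟩ := level2 hj'
  obtain ⟨m, ⟨f0⟩⟩ := free_of (K0 := K0) (A := A')
  obtain ⟨s0, hs0⟩ := stb f0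
  obtain ⟨e0, he1, he2⟩ := bound f0 be ga
  obtain ⟨k0, hk0⟩ := l2u m s0 e0
  refine ⟨k0, fun k hk K _ _ _ P => ?_⟩
  have hft : Algebra.FiniteType K0 A' := by
    have h1 : Algebra.FiniteType K0 K0[X] := inferInstance
    have h2 : Algebra.FiniteType K0[X] A' := inferInstance
    exact Algebra.FiniteType.trans h1 h2
  have hcz : CharZero K := charZero_of_injective_algebraMap (algebraMap K0 K).injective
  have hdom : IsDomain (K ⊗[K0] A') := tens_dom K0 K A'
  obtain ⟨hX, hXt, f, hfs, hfd⟩ := bc f0 hs0 K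
  obtain ⟨im, him⟩ := IsAlgClosed.exists_pow_nat_eq (-1 : K) (n := 2) two_pos
  let iK : K ⊗[K0] A →ₐ[K] K ⊗[K0] A' := Algebra.TensorProduct.map (AlgHom.id K K) i
  have hiK : Function.Injective iK := map_inj K hi
  have hintK : iK.toRingHom.IsIntegral := map_int K hint
  have hiKa : ∀ x, iK (1 ⊗ₜ x) = 1 ⊗ₜ i x := fun x => by
    change Algebra.TensorProduct.map (AlgHom.id K K) i (1 ⊗ₜ x) = _
    rw [Algebra.TensorProduct.map_tmul]
    rfl
  have hinc : ∀ x : A', ((1 : K) ⊗ₜ[K0] x : K ⊗[K0] A') = Algebra.TensorProduct.includeRight x := fun _ => rfl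
  have heK : ((1 : K) ⊗ₜ[K0] e : K ⊗[K0] A') ^ 3 + iK (1 ⊗ₜ (-3 * a)) * (1 ⊗ₜ e) + iK (1 ⊗ₜ (-2 * b)) = 0 := by
    rw [hiKa, hiKa, hinc, hinc, hinc, ← map_pow, ← map_mul, ← map_add, ← map_add, he, map_zero]
  have hbeK : ((1 : K) ⊗ₜ[K0] be : K ⊗[K0] A') ^ 2 = 3 * (1 ⊗ₜ e) ^ 2 + iK (1 ⊗ₜ (-3 * a)) := by
    rw [hiKa, hinc, hinc, hinc, ← map_pow, hbe, map_add, map_mul, map_pow, map_ofNat]
  have hgaK : 2 * ((1 : K) ⊗ₜ[K0] ga : K ⊗[K0] A') = -3 * (1 ⊗ₜ e) := by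
    have h1 := congrArg (Algebra.TensorProduct.includeRight : A' →ₐ[K0] K ⊗[K0] A') hga
    rw [map_mul, map_mul, map_neg, map_ofNat, map_ofNat] at h1
    exact h1
  obtain ⟨Ψ, hI, hΨ⟩ := tfun hintK him heK hbeK hgaK (fnl K a b k)
  have hsur : ∀ j, ∃ Q : Pt K (K ⊗[K0] A') K, OnT (1 ⊗ₜ be) (1 ⊗ₜ ga) Q ∧
      psi' iK im (1 ⊗ₜ e) Q = upP (K := K) (P j) := fun j =>
    surj hiK hintK him heK hbeK hgaK _ (upP_on (P j))
  choose Q hQT hQ using hsur
  have key := hk0 f hfs him (hfd be e0 he1) (hfd ga e0 he2) (lin0 K hbe0) (lin1 K hbe0 hga0) k hk _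
    (fun n x hn hx => quot_tf _ n x (Nat.pos_of_ne_zero hn) hx) Ψ hI Q hQT
  unfold altSum at key
  rw [← QuotientAddGroup.eq_zero_iff, QuotientAddGroup.mk_sum, ← key]
  refine Finset.sum_congr rfl fun σ _ => ?_
  rw [QuotientAddGroup.mk_zsmul, hΨ]
  congr 1
  have h1 : (fun j => psi' iK im ((1 : K) ⊗ₜ[K0] e) ((Q ∘ σ) j)) = fun j => upP (K := K) (P (σ j)) := by
    funext j
    exact hQ (σ j)
  rw [h1]
  change _ = clU a b k _
  unfold clU
  rw [dif_pos fun j => upP_on (P (σ j))]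
  congr 1
  congr 1
  funext j
  exact (dn_upP (P (σ j))).symm

end H77.UB
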